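import Mathlib

/-!
# An inequality for symmetric cubic sums with prescribed marginals
-/

set_option autoImplicit false

namespace Run7.h512.EK

open Finset

variable {K : Type*} [Fintype K]

/-- the trilinear sum -/
def T3 (P : K → K → K → ℝ) (u v w : K → ℝ) : ℝ := ∑ a, ∑ b, ∑ c, u a * v b * w c * P a b c

/-- the bilinear sum -/
def T2 (Q : K → K → ℝ) (u v : K → ℝ) : ℝ := ∑ a, ∑ b, u a * v b * Q a b

/-- the numbers attached to an Einstein curvature operator in dimension six -/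
structure Dat (la : K → ℝ) (ρ : ℝ) (P : K → K → K → ℝ) (Q C : K → K → ℝ) : Prop where
  card : Fintype.card K = 15
  P0 : ∀ a b c, 0 ≤ P a b c
  P1 : ∀ a b c, P a b c = P b a c
  P2 : ∀ a b c, P a b c = P a c b
  PQ : ∀ a b, ∑ c, P a b c = Q a b
  Q6 : ∀ a, ∑ b, Q a b = 6
  Ql : ∀ a, ∑ b, la b * Q a b = ρ + la a
  Qb : ∀ v : K → ℝ, T2 Q v v ≤ (∑ a, v a) ^ 2 / 3 + ∑ a, v a ^ 2
  ls : ∑ a, la a = 3 * ρ
  C0 : ∀ a b, 0 ≤ C a b
  C2 : ∀ a b, C a b ≤ 2
  Cs : ∀ a, ∑ b, C a b = 8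
  Cl : ∀ a, ∑ b, la b * C a b = 2 * (ρ - la a)

theorem T3_add1 (P : K → K → K → ℝ) (u u' v w : K → ℝ) :
    T3 P (u + u') v w = T3 P u v w + T3 P u' v w := by
  unfold T3
  simp only [← Finset.sum_add_distrib]
  refine Finset.sum_congr rfl fun a _ => Finset.sum_congr rfl fun b _ =>
    Finset.sum_congr rfl fun c _ => ?_
  rw [Pi.add_apply]; ring

theorem T3_sub1 (P : K → K → K → ℝ) (u u' v w : K → ℝ) :
    T3 P (u - u') v w = T3 P u v w - T3 P u' v w := by
  unfold T3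
  simp only [← Finset.sum_sub_distrib]
  refine Finset.sum_congr rfl fun a _ => Finset.sum_congr rfl fun b _ =>
    Finset.sum_congr rfl fun c _ => ?_
  rw [Pi.sub_apply]; ring

theorem T2_sub1 (Q : K → K → ℝ) (u u' v : K → ℝ) :
    T2 Q (u - u') v = T2 Q u v - T2 Q u' v := by
  unfold T2
  simp only [← Finset.sum_sub_distrib]
  refine Finset.sum_congr rfl fun a _ => Finset.sum_congr rfl fun b _ => ?_
  rw [Pi.sub_apply]; ring

variable {la : K → ℝ} {ρ : ℝ} {P : K → K → K → ℝ} {Q C : K → K → ℝ}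

theorem Dat.T12 (D : Dat la ρ P Q C) (u v w : K → ℝ) : T3 P u v w = T3 P v u w := by
  unfold T3
  rw [Finset.sum_comm]
  refine Finset.sum_congr rfl fun a _ => Finset.sum_congr rfl fun b _ =>
    Finset.sum_congr rfl fun c _ => ?_
  rw [D.P1 b a c]; ring

theorem Dat.T23 (D : Dat la ρ P Q C) (u v w : K → ℝ) : T3 P u v w = T3 P u w v := by
  unfold T3
  refine Finset.sum_congr rfl fun a _ => ?_
  rw [Finset.sum_comm]
  refine Finset.sum_congr rfl fun b _ => Finset.sum_congr rfl fun c _ => ?_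
  rw [D.P2 a c b]; ring

theorem Dat.Qs (D : Dat la ρ P Q C) (a b : K) : Q a b = Q b a := by
  rw [← D.PQ, ← D.PQ]
  exact Finset.sum_congr rfl fun c _ => D.P1 a b c

theorem Dat.Q0 (D : Dat la ρ P Q C) (a b : K) : 0 ≤ Q a b := by
  rw [← D.PQ]
  exact Finset.sum_nonneg fun c _ => D.P0 a b c

theorem Dat.Tc (D : Dat la ρ P Q C) (u v : K → ℝ) (s : ℝ) :
    T3 P u v (fun _ => s) = s * T2 Q u v := by
  unfold T3 T2
  rw [Finset.mul_sum]
  refine Finset.sum_congr rfl fun a _ => ?_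
  rw [Finset.mul_sum]
  refine Finset.sum_congr rfl fun b _ => ?_
  rw [← D.PQ, Finset.mul_sum, Finset.mul_sum]
  exact Finset.sum_congr rfl fun c _ => by ring

theorem Dat.Qc (D : Dat la ρ P Q C) (u : K → ℝ) (s : ℝ) :
    T2 Q u (fun _ => s) = s * (6 * ∑ a, u a) := by
  unfold T2
  rw [Finset.mul_sum, Finset.mul_sum]
  refine Finset.sum_congr rfl fun a _ => ?_
  rw [← D.Q6 a, Finset.sum_mul, Finset.mul_sum]
  exact Finset.sum_congr rfl fun b _ => by ring

theorem T3_mono (P0 : ∀ a b c, 0 ≤ P a b c) {u v w w' : K → ℝ} (hu : ∀ a, 0 ≤ u a)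
    (hv : ∀ a, 0 ≤ v a) (hw : ∀ a, w a ≤ w' a) : T3 P u v w ≤ T3 P u v w' := by
  unfold T3
  refine Finset.sum_le_sum fun a _ => Finset.sum_le_sum fun b _ =>
    Finset.sum_le_sum fun c _ => ?_
  exact mul_le_mul_of_nonneg_right
    (mul_le_mul_of_nonneg_left (hw c) (mul_nonneg (hu a) (hv b))) (P0 a b c)

theorem T3_nonneg (P0 : ∀ a b c, 0 ≤ P a b c) {u v w : K → ℝ} (hu : ∀ a, 0 ≤ u a)
    (hv : ∀ a, 0 ≤ v a) (hw : ∀ a, 0 ≤ w a) : 0 ≤ T3 P u v w := by
  unfold T3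
  refine Finset.sum_nonneg fun a _ => Finset.sum_nonneg fun b _ =>
    Finset.sum_nonneg fun c _ => ?_
  exact mul_nonneg (mul_nonneg (mul_nonneg (hu a) (hv b)) (hw c)) (P0 a b c)

/-- the shift -/
theorem Dat.shift (D : Dat la ρ P Q C) (s : ℝ) (be : K → ℝ) (hbe : ∀ a, la a = s + be a) {r : ℝ}
    (hr : r = ρ - 5 * s) :
    ∑ a, be a = 3 * r ∧ (∀ a, ∑ b, be b * Q a b = r + be a) ∧
      (∀ a, ∑ b, be b * C a b = 2 * (r - be a)) ∧
      T3 P la la la = 90 * s ^ 3 + 54 * s ^ 2 * r + 3 * s * (3 * r ^ 2 + ∑ a, be a ^ 2) +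
        T3 P be be be := by
  have h1 : ∑ a, be a = 3 * r := by
    have := D.ls
    simp only [hbe, Finset.sum_add_distrib, Finset.sum_const, Finset.card_univ, D.card,
      nsmul_eq_mul] at this
    push_cast at this
    linarith
  have h2 : ∀ a, ∑ b, be b * Q a b = r + be a := by
    intro a
    have := D.Ql a
    simp only [hbe, add_mul, Finset.sum_add_distrib, ← Finset.mul_sum] at this
    rw [D.Q6] at this
    linarith
  have h3 : ∀ a, ∑ b, be b * C a b = 2 * (r - be a) := by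
    intro a
    have := D.Cl a
    simp only [hbe, add_mul, Finset.sum_add_distrib, ← Finset.mul_sum] at this
    rw [D.Cs] at this
    linarith
  refine ⟨h1, h2, h3, ?_⟩
  have e0 : la = (fun _ => s) + be := by
    funext a
    rw [Pi.add_apply, hbe]
  have hQ : T2 Q be be = 3 * r ^ 2 + ∑ a, be a ^ 2 := by
    have e1 : T2 Q be be = ∑ a, be a * (r + be a) := by
      unfold T2
      refine Finset.sum_congr rfl fun a _ => ?_
      rw [← h2 a, Finset.mul_sum]
      exact Finset.sum_congr rfl fun b _ => by ring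
    rw [e1]
    simp only [mul_add, Finset.sum_add_distrib]
    rw [← Finset.sum_mul, h1]
    have : ∑ a, be a * be a = ∑ a, be a ^ 2 := Finset.sum_congr rfl fun a _ => by ring
    rw [this]; ring
  have hc : ∑ _a : K, s = 15 * s := by
    rw [Finset.sum_const, Finset.card_univ, D.card, nsmul_eq_mul]
    norm_num
  have k1 : ∀ u v w : K → ℝ, T3 P ((fun _ => s) + u) v w = T3 P (fun _ => s) v w + T3 P u v w :=
    fun u v w => T3_add1 P _ u v w
  have k2 : ∀ u v w : K → ℝ, T3 P u ((fun _ => s) + v) w = T3 P u (fun _ => s) w + T3 P u v w := by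
    intro u v w
    rw [D.T12, k1, D.T12 (fun _ => s) u w, D.T12 v u w]
  have k3 : ∀ u v w : K → ℝ, T3 P u v ((fun _ => s) + w) = T3 P u v (fun _ => s) + T3 P u v w := by
    intro u v w
    rw [D.T23, k2, D.T23 u (fun _ => s) v, D.T23 u w v]
  rw [e0, k1, k2, k2, k3, k3, k3, k3]
  have c1 : ∀ u v : K → ℝ, T3 P u v (fun _ => s) = s * T2 Q u v := fun u v => D.Tc u v s
  have c2 : ∀ u v : K → ℝ, T3 P u (fun _ => s) v = s * T2 Q u v := fun u v => by
    rw [D.T23, c1]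
  have c3 : ∀ u v : K → ℝ, T3 P (fun _ => s) u v = s * T2 Q u v := fun u v => by
    rw [D.T12, c2]
  have q1 : T2 Q (fun _ => s) be = T2 Q be (fun _ => s) := by
    unfold T2
    rw [Finset.sum_comm]
    refine Finset.sum_congr rfl fun a _ => Finset.sum_congr rfl fun b _ => ?_
    rw [D.Qs b a]; ring
  simp only [c1, c2, c3, q1, hQ, D.Qc, hc, h1]
  ring

/-- the final polynomial -/
theorem fin_poly {s r b x y : ℝ} (hs : 0 < s) (hb0 : 0 ≤ b) (hy0 : 0 ≤ y) (hyb : y ≤ b)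
    (hb : b ≤ 4 * s) (hr : y - b ≤ 2 * r) (h3 : 0 ≤ 3 * r + b) (hx0 : 0 ≤ x) (hx : x ≤ r + b) :
    0 < 90 * s ^ 3 + 54 * s ^ 2 * r + 3 * s * (3 * r ^ 2 + (x ^ 2 + y ^ 2)) -
      3 * (x * (r * b + b ^ 2 / 3)) - y * (b ^ 2 / 3 + y * b) := by
  have g1 : 0 ≤ y ^ 2 * (4 * s - b) + y * ((4 * s - b) * (4 * s + b)) / 3 := by
    have : 0 ≤ 4 * s - b := by linarith
    have : 0 ≤ 4 * s + b := by linarith
    positivity
  have f1 : 0 ≤ 3 * x * ((4 * s - b) * (r + (4 * s + b) / 3)) := by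
    refine mul_nonneg (by linarith) (mul_nonneg (by linarith) (by linarith))
  have f2 : 0 ≤ 3 * s * (x - 2 * (r + 4 * s / 3)) ^ 2 := by positivity
  have s2 : 0 < s ^ 2 := by positivity
  have s3 : 0 < s ^ 3 := by positivity
  rcases lt_or_ge r 0 with hr0 | hr0
  · -- negative `r`
    have hy : y ≤ 4 * s + 2 * r := by linarith
    have y1 : 0 ≤ s * ((4 * s + 2 * r - y) * (4 * s + 2 * r + y)) := by
      refine mul_nonneg hs.le (mul_nonneg (by linarith) (by linarith))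
    have y2 : 0 ≤ s ^ 2 * (4 * s + 2 * r - y) := mul_nonneg s2.le (by linarith)
    have r1 : 0 ≤ s * ((-r) * (r + 4 * s / 3)) :=
      mul_nonneg hs.le (mul_nonneg (by linarith) (by linarith))
    have r2 : 0 ≤ s ^ 2 * (r + 4 * s / 3) := mul_nonneg s2.le (by linarith)
    nlinarith
  · have hy : y ≤ 4 * s := by linarith
    have y1 : 0 ≤ s * ((4 * s - y) * (4 * s + y)) :=
      mul_nonneg hs.le (mul_nonneg (by linarith) (by linarith))
    have y2 : 0 ≤ s ^ 2 * (4 * s - y) := mul_nonneg s2.le (by linarith)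
    have r2 : 0 ≤ s ^ 2 * r := mul_nonneg s2.le hr0
    rcases le_or_gt (4 * s) (3 * r) with h4 | h4
    · have x1 : 0 ≤ 3 * s * ((r + 4 * s - x) * (3 * r + 4 * s / 3 - x)) := by
        refine mul_nonneg (by linarith) (mul_nonneg (by linarith) (by linarith))
      nlinarith
    · have r1 : 0 ≤ s * (r * (4 * s - 3 * r)) :=
        mul_nonneg hs.le (mul_nonneg hr0 (by linarith))
      nlinarith

end Run7.h512.EK
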