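import Pool.Agent.Run7.h512.EK.Abs

/-!
# The sign of the cubic sum when the sum of the four smallest weights is nonnegative
-/

set_option autoImplicit false

namespace Run7.h512.EK

open Finset

variable {K : Type*} [Fintype K] {la : K → ℝ} {ρ : ℝ} {P : K → K → K → ℝ} {Q C : K → K → ℝ}

theorem Dat.T2s (D : Dat la ρ P Q C) (u v : K → ℝ) : T2 Q u v = T2 Q v u := by
  unfold T2
  rw [Finset.sum_comm]
  refine Finset.sum_congr rfl fun a _ => Finset.sum_congr rfl fun b _ => ?_
  rw [D.Qs b a]; ring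

theorem T3_pm (D : Dat la ρ P Q C) (u v : K → ℝ) :
    T3 P (u - v) (u - v) (u - v) =
      T3 P u u u - 3 * T3 P u v u + 3 * T3 P u v v - T3 P v v v := by
  have k1 : ∀ u v w z : K → ℝ, T3 P (u - v) w z = T3 P u w z - T3 P v w z :=
    fun u v w z => T3_sub1 P u v w z
  have k2 : ∀ u v w z : K → ℝ, T3 P w (u - v) z = T3 P w u z - T3 P w v z := by
    intro u v w z
    rw [D.T12, k1, D.T12 u w, D.T12 v w]
  have k3 : ∀ u v w z : K → ℝ, T3 P w z (u - v) = T3 P w z u - T3 P w z v := by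
    intro u v w z
    rw [D.T23, k2, D.T23 w u, D.T23 w v]
  simp only [k1, k2, k3]
  have e1 : T3 P u u v = T3 P u v u := D.T23 _ _ _
  have e2 : T3 P v u u = T3 P u v u := D.T12 _ _ _
  have e3 : T3 P v u v = T3 P u v v := D.T12 _ _ _
  have e4 : T3 P v v u = T3 P u v v := by rw [D.T23, D.T12]
  rw [e1, e2, e3, e4]; ring

theorem Dat.main (D : Dat la ρ P Q C) {s : ℝ} (hs : 0 < s) (T : Finset K) (hT : T.card = 4)
    (hin : ∀ a ∈ T, la a ≤ s) (hout : ∀ a, a ∉ T → s ≤ la a) (hsum : 0 ≤ ∑ a ∈ T, la a) :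
    0 < T3 P la la la := by
  classical
  obtain ⟨r, hr⟩ : ∃ r, r = ρ - 5 * s := ⟨_, rfl⟩
  obtain ⟨be, hbe⟩ : ∃ be : K → ℝ, ∀ a, be a = la a - s := ⟨fun a => la a - s, fun _ => rfl⟩
  obtain ⟨h1, h2, h3, h4⟩ := D.shift s be (fun a => by rw [hbe]; ring) hr
  obtain ⟨bp, hbp⟩ : ∃ bp : K → ℝ, ∀ a, bp a = max (be a) 0 := ⟨fun a => max (be a) 0, fun _ => rfl⟩
  obtain ⟨bm, hbm⟩ : ∃ bm : K → ℝ, ∀ a, bm a = max (-be a) 0 :=
    ⟨fun a => max (-be a) 0, fun _ => rfl⟩
  have p0 : ∀ a, 0 ≤ bp a := fun a => by rw [hbp]; exact le_max_right _ _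
  have m0 : ∀ a, 0 ≤ bm a := fun a => by rw [hbm]; exact le_max_right _ _
  have hpm : ∀ a, be a = bp a - bm a := by
    intro a
    rw [hbp, hbm]
    rcases le_total (be a) 0 with h | h
    · rw [max_eq_right h, max_eq_left (by linarith)]; ring
    · rw [max_eq_left h, max_eq_right (by linarith)]; ring
  have hz : ∀ a, bp a * bm a = 0 := by
    intro a
    rw [hbp, hbm]
    rcases le_total (be a) 0 with h | h
    · rw [max_eq_right h]; ring
    · rw [max_eq_right (a := -be a) (by linarith)]; ring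
  have hq : ∀ a, be a ^ 2 = bp a ^ 2 + bm a ^ 2 := by
    intro a
    rw [hpm]
    linear_combination -2 * hz a
  obtain ⟨b, hb⟩ : ∃ b, b = ∑ a, bm a := ⟨_, rfl⟩
  have b0 : 0 ≤ b := by rw [hb]; exact Finset.sum_nonneg fun a _ => m0 a
  -- the total negative part
  have hb4 : b ≤ 4 * s := by
    have e1 : ∑ a, bm a = ∑ a ∈ T, bm a := by
      rw [← Finset.sum_subset (Finset.subset_univ T)]
      intro a _ ha
      rw [hbm, max_eq_right]
      have := hout a ha
      rw [hbe]; linarith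
    have e2 : ∑ a ∈ T, bm a = ∑ a ∈ T, (s - la a) := by
      refine Finset.sum_congr rfl fun a ha => ?_
      rw [hbm, max_eq_left]
      · rw [hbe]; ring
      · have := hin a ha
        rw [hbe]; linarith
    rw [hb, e1, e2, Finset.sum_sub_distrib, Finset.sum_const, hT, nsmul_eq_mul]
    push_cast
    linarith
  have hsp : ∑ a, bp a = 3 * r + b := by
    have e1 : ∑ a, bp a = ∑ a, (be a + bm a) :=
      Finset.sum_congr rfl fun a _ => by rw [hpm]; ring
    rw [e1, Finset.sum_add_distrib, h1, hb]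
  have h3r : 0 ≤ 3 * r + b := by rw [← hsp]; exact Finset.sum_nonneg fun a _ => p0 a
  -- maxima
  have hne : (Finset.univ : Finset K).Nonempty := by
    rw [← Finset.card_pos, Finset.card_univ, D.card]; norm_num
  obtain ⟨a1, -, ha1⟩ := Finset.exists_max_image Finset.univ bp hne
  obtain ⟨a2, -, ha2⟩ := Finset.exists_max_image Finset.univ bm hne
  obtain ⟨x, hx⟩ : ∃ x, x = bp a1 := ⟨_, rfl⟩
  obtain ⟨y, hy⟩ : ∃ y, y = bm a2 := ⟨_, rfl⟩
  have x0 : 0 ≤ x := by rw [hx]; exact p0 _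
  have y0 : 0 ≤ y := by rw [hy]; exact m0 _
  have hxm : ∀ a, bp a ≤ x := fun a => by rw [hx]; exact ha1 a (Finset.mem_univ a)
  have hym : ∀ a, bm a ≤ y := fun a => by rw [hy]; exact ha2 a (Finset.mem_univ a)
  have hyb : y ≤ b := by
    rw [hy, hb]
    exact Finset.single_le_sum (fun a _ => m0 a) (Finset.mem_univ a2)
  have low : ∀ a, be a ≤ r + b := by
    intro a
    have e1 := h3 a
    have e2 : -(2 * b) ≤ ∑ c, be c * C a c := by
      rw [hb, Finset.mul_sum, ← Finset.sum_neg_distrib]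
      refine Finset.sum_le_sum fun c _ => ?_
      rw [hpm]
      have t1 := mul_nonneg (p0 c) (D.C0 a c)
      have t2 := mul_le_mul_of_nonneg_left (D.C2 a c) (m0 c)
      linarith
    linarith
  have upp : ∀ a, -be a ≤ 2 * r + b := by
    intro a
    have e1 := h3 a
    have e2 : ∑ c, be c * C a c ≤ 2 * (3 * r + b) := by
      rw [← hsp, Finset.mul_sum]
      refine Finset.sum_le_sum fun c _ => ?_
      rw [hpm]
      have t1 := mul_nonneg (m0 c) (D.C0 a c)
      have t2 := mul_le_mul_of_nonneg_left (D.C2 a c) (p0 c)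
      linarith
    linarith
  have hxr : x ≤ r + b := by
    rw [hx, hbp]
    exact max_le (low a1) (by linarith)
  have hyr : y - b ≤ 2 * r := by
    have : y ≤ 2 * r + b := by
      rw [hy, hbm]
      exact max_le (upp a2) (by linarith)
    linarith
  -- squares
  have hsq : x ^ 2 + y ^ 2 ≤ ∑ a, be a ^ 2 := by
    have e1 : ∑ a, be a ^ 2 = ∑ a, bp a ^ 2 + ∑ a, bm a ^ 2 := by
      rw [← Finset.sum_add_distrib]
      exact Finset.sum_congr rfl fun a _ => hq a
    have e2 : x ^ 2 ≤ ∑ a, bp a ^ 2 := by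
      rw [hx]
      exact Finset.single_le_sum (f := fun a => bp a ^ 2) (fun a _ => sq_nonneg _)
        (Finset.mem_univ a1)
    have e3 : y ^ 2 ≤ ∑ a, bm a ^ 2 := by
      rw [hy]
      exact Finset.single_le_sum (f := fun a => bm a ^ 2) (fun a _ => sq_nonneg _)
        (Finset.mem_univ a2)
    linarith
  have hm2 : ∑ a, bm a ^ 2 ≤ y * b := by
    rw [hb, Finset.mul_sum]
    refine Finset.sum_le_sum fun a _ => ?_
    rw [pow_two]
    exact mul_le_mul_of_nonneg_right (hym a) (m0 a)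
  -- the bilinear sums
  have q1 : T2 Q bm bm ≤ b ^ 2 / 3 + ∑ a, bm a ^ 2 := by
    have := D.Qb bm
    rwa [← hb] at this
  have q2 : T2 Q be bm = r * b - ∑ a, bm a ^ 2 := by
    rw [D.T2s]
    have e1 : T2 Q bm be = ∑ a, bm a * (r + be a) := by
      unfold T2
      refine Finset.sum_congr rfl fun a _ => ?_
      rw [← h2 a, Finset.mul_sum]
      exact Finset.sum_congr rfl fun b _ => by ring
    rw [e1, hb, Finset.mul_sum, ← Finset.sum_sub_distrib]
    refine Finset.sum_congr rfl fun a _ => ?_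
    rw [hpm]
    linear_combination hz a
  have ebe : be = bp - bm := by
    funext a
    rw [Pi.sub_apply, hpm]
  have q3 : T2 Q bp bm ≤ r * b + b ^ 2 / 3 := by
    have e1 : T2 Q be bm = T2 Q bp bm - T2 Q bm bm := by
      rw [ebe, T2_sub1]
    linarith
  -- the cubic sums
  have c1 : T3 P bp bm bp ≤ x * (r * b + b ^ 2 / 3) := by
    have e1 : T3 P bp bm bp ≤ T3 P bp bm (fun _ => x) := T3_mono D.P0 p0 m0 hxm
    rw [D.Tc] at e1
    exact e1.trans (mul_le_mul_of_nonneg_left q3 x0)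
  have c2 : T3 P bm bm bm ≤ y * (b ^ 2 / 3 + y * b) := by
    have e1 : T3 P bm bm bm ≤ T3 P bm bm (fun _ => y) := T3_mono D.P0 m0 m0 hym
    rw [D.Tc] at e1
    exact e1.trans (mul_le_mul_of_nonneg_left (q1.trans (by linarith)) y0)
  have c3 : 0 ≤ T3 P bp bp bp := T3_nonneg D.P0 p0 p0 p0
  have c4 : 0 ≤ T3 P bp bm bm := T3_nonneg D.P0 p0 m0 m0
  have c5 := T3_pm D bp bm
  rw [← ebe] at c5
  have c6 := fin_poly hs b0 y0 hyb hb4 hyr h3r x0 hxr
  have c7 : 3 * s * (3 * r ^ 2 + (x ^ 2 + y ^ 2)) ≤ 3 * s * (3 * r ^ 2 + ∑ a, be a ^ 2) :=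
    mul_le_mul_of_nonneg_left (by linarith) (by linarith)
  rw [h4, c5]
  linarith

/-- a set of given size on which the weights are smallest -/
theorem exists_low (la : K → ℝ) (k : ℕ) (hk : k ≤ Fintype.card K) :
    ∃ T : Finset K, T.card = k ∧ ∀ a ∈ T, ∀ c, c ∉ T → la a ≤ la c := by
  classical
  induction k with
  | zero => exact ⟨∅, rfl, fun a ha => absurd ha (Finset.notMem_empty a)⟩
  | succ k ih =>
    obtain ⟨T, hT, h⟩ := ih (by omega)
    have hne : (Finset.univ \ T).Nonempty := by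
      rw [← Finset.card_pos, Finset.card_sdiff_of_subset (Finset.subset_univ T), Finset.card_univ,
        hT]
      omega
    obtain ⟨q, hq, hmin⟩ := Finset.exists_min_image (Finset.univ \ T) la hne
    have hqT : q ∉ T := (Finset.mem_sdiff.1 hq).2
    refine ⟨insert q T, by rw [Finset.card_insert_of_notMem hqT, hT], ?_⟩
    intro a ha c hc
    rw [Finset.mem_insert, not_or] at hc
    rcases Finset.mem_insert.1 ha with rfl | ha
    · exact hmin c (Finset.mem_sdiff.2 ⟨Finset.mem_univ c, hc.2⟩)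
    · exact h a ha c hc.2

/-- **the abstract inequality** -/
theorem Dat.final (D : Dat la ρ P Q C) (h4 : ∀ T : Finset K, T.card = 4 → 0 ≤ ∑ a ∈ T, la a) :
    0 ≤ T3 P la la la ∧ ((∃ a, la a < 0) → 0 < T3 P la la la) := by
  classical
  obtain ⟨T, hT, hlow⟩ := exists_low la 4 (by rw [D.card]; norm_num)
  have hne : T.Nonempty := by rw [← Finset.card_pos, hT]; norm_num
  obtain ⟨q, hq, hmax⟩ := Finset.exists_max_image T la hne
  rcases lt_or_ge 0 (la q) with h0 | h0
  · have h := D.main h0 T hT hmax (fun a ha => hlow q hq a ha) (h4 T hT)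
    exact ⟨h.le, fun _ => h⟩
  · have h1 : ∀ a ∈ T, la a = 0 := by
      have e1 : ∀ a ∈ T, 0 ≤ -la a := fun a ha => by linarith [hmax a ha]
      have e2 : ∑ a ∈ T, -la a = 0 := by
        refine le_antisymm ?_ (Finset.sum_nonneg e1)
        rw [Finset.sum_neg_distrib]
        linarith [h4 T hT]
      intro a ha
      have := (Finset.sum_eq_zero_iff_of_nonneg e1).1 e2 a ha
      linarith
    have h2 : ∀ a, 0 ≤ la a := by
      intro a
      by_cases ha : a ∈ T
      · rw [h1 a ha]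
      · have := hlow q hq a ha
        rw [h1 q hq] at this
        exact this
    refine ⟨T3_nonneg D.P0 h2 h2 h2, ?_⟩
    rintro ⟨a, ha⟩
    exact absurd (h2 a) (not_le.2 ha)

end Run7.h512.EK
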