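import Pool.Agent.Run7.h512.EK.Rules
import Pool.Agent.Run7.h512.EK.Main

/-!
# The numbers of an Einstein curvature operator in dimension six
-/

set_option autoImplicit false

namespace Run7.h512.EK

open Finset Pool.Agent.TH594.HP Pool.Agent.TH594.HE

variable {J : Type*} [Fintype J] [DecidableEq J]

/-- the triple products -/
noncomputable def PP (h : Pr J → Matrix J J ℝ) (a b c : Pr J) : ℝ :=
  nn (LM (h c) (LM (h b) (LM (h a) (vac : Fk J)))) / 64

/-- the double products -/
noncomputable def QQ (h : Pr J → Matrix J J ℝ) (a b : Pr J) : ℝ :=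
  nn (LM (h b) (LM (h a) (vac : Fk J))) / 16

variable {h : Pr J → Matrix J J ℝ} {la : Pr J → ℝ} {c ρ : ℝ}

theorem SF.QQ_eq (F : SF h la c ρ) (a b : Pr J) :
    QQ h a b = (if a = b then 1 else 0) + 1 -
      Matrix.trace ((h a * h a) * (h b * h b)) := by
  unfold QQ
  rw [nn_four (F.sk b) (F.sk a), F.one, F.one, sp_tr (F.sk a)]
  have e1 : Matrix.trace (h a * (h b * h b * h a)) =
      Matrix.trace ((h a * h a) * (h b * h b)) := by
    rw [Matrix.trace_mul_comm, Matrix.mul_assoc, Matrix.trace_mul_comm]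
  rw [e1]
  by_cases hab : a = b
  · subst hab
    rw [F.one, if_pos rfl]; ring
  · rw [F.orth (Ne.symm hab), if_neg hab]; ring

omit [DecidableEq J] in
theorem sk_sq_symm {A : Matrix J J ℝ} (hA : Sk A) (i j : J) : (A * A) i j = (A * A) j i := by
  simp only [Matrix.mul_apply]
  exact Finset.sum_congr rfl fun k _ => by rw [hA k i, hA j k]; ring

theorem SF.Qb (F : SF h la c ρ) (h6 : Fintype.card J = 6) (v : Pr J → ℝ) :
    T2 (QQ h) v v ≤ (∑ a, v a) ^ 2 / 3 + ∑ a, v a ^ 2 := by
  obtain ⟨M, hM⟩ : ∃ M : Matrix J J ℝ, M = ∑ a, v a • (h a * h a) := ⟨_, rfl⟩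
  have h1 : T2 (QQ h) v v = ∑ a, v a ^ 2 + (∑ a, v a) ^ 2 - Matrix.trace (M * M) := by
    have e1 : Matrix.trace (M * M) = ∑ a, ∑ b, v a * v b *
        Matrix.trace ((h a * h a) * (h b * h b)) := by
      rw [hM, Finset.sum_mul, Matrix.trace_sum]
      refine Finset.sum_congr rfl fun a _ => ?_
      rw [Finset.mul_sum, Matrix.trace_sum]
      refine Finset.sum_congr rfl fun b _ => ?_
      rw [Matrix.smul_mul, Matrix.mul_smul, Matrix.trace_smul, Matrix.trace_smul, smul_eq_mul,
        smul_eq_mul]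
      ring
    have e2 : (∑ a, v a) ^ 2 = ∑ a, ∑ b, v a * v b := by
      rw [pow_two, Finset.sum_mul_sum]
    have e3 : ∑ a, v a ^ 2 = ∑ a, ∑ b, v a * v b * (if a = b then 1 else 0) := by
      refine Finset.sum_congr rfl fun a _ => ?_
      simp only [mul_ite, mul_one, mul_zero]
      rw [Finset.sum_ite_eq]
      simp [pow_two]
    rw [e1, e2, e3]
    unfold T2
    simp only [← Finset.sum_add_distrib, ← Finset.sum_sub_distrib]
    refine Finset.sum_congr rfl fun a _ => Finset.sum_congr rfl fun b _ => ?_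
    rw [F.QQ_eq]; ring
  have hsym : ∀ i j, M i j = M j i := by
    intro i j
    rw [hM, Matrix.sum_apply, Matrix.sum_apply]
    refine Finset.sum_congr rfl fun a _ => ?_
    rw [Matrix.smul_apply, Matrix.smul_apply, sk_sq_symm (F.sk a)]
  have h2 : ∑ i, M i i ^ 2 ≤ Matrix.trace (M * M) := by
    unfold Matrix.trace
    refine Finset.sum_le_sum fun i _ => ?_
    rw [Matrix.diag_apply, Matrix.mul_apply]
    have : M i i ^ 2 = M i i * M i i := by ring
    rw [this]
    refine Finset.single_le_sum (f := fun j => M i j * M j i) (fun j _ => ?_) (Finset.mem_univ i)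
    rw [hsym j i]
    exact mul_self_nonneg _
  have h3 : (∑ i, M i i) ^ 2 ≤ 6 * ∑ i, M i i ^ 2 := by
    have := sq_sum_le_card_mul_sum_sq (s := (Finset.univ : Finset J)) (f := fun i => M i i)
    rw [Finset.card_univ, h6] at this
    exact_mod_cast this
  have h4 : ∑ i, M i i = -2 * ∑ a, v a := by
    have e1 : ∑ i, M i i = Matrix.trace M := rfl
    rw [e1, hM, Matrix.trace_sum, Finset.mul_sum]
    refine Finset.sum_congr rfl fun a _ => ?_
    rw [Matrix.trace_smul, smul_eq_mul]
    have := sp_tr (F.sk a) (h a)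
    rw [F.one] at this
    linear_combination (2 * v a) * this
  rw [h4] at h3
  rw [h1]
  nlinarith

theorem SF.dat (F : SF h la c ρ) (h6 : Fintype.card J = 6) :
    Dat la ρ (PP h) (QQ h) (CC h) where
  card := by
    have := F.fam.card
    rw [h6] at this
    norm_num at this
    exact_mod_cast this
  P0 a b d := div_nonneg (nn_nonneg _) (by norm_num)
  P1 a b d := by unfold PP; rw [LM_comm (h b) (h a)]
  P2 a b d := by unfold PP; rw [LM_comm (h d) (h b)]
  PQ a b := by
    have hd : Dg (2 + 2) (LM (h b) (LM (h a) (vac : Fk J))) := Dg_LM (Dg_LM Dg_vac _) _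
    have h1 := F.unit hd
    unfold PP QQ
    rw [← Finset.sum_div, h1, h6]
    push_cast
    ring
  Q6 a := by
    have hd : Dg (0 + 2) (LM (h a) (vac : Fk J)) := Dg_LM Dg_vac _
    have h1 := F.unit hd
    unfold QQ
    rw [← Finset.sum_div, h1, h6, nn_two (F.sk a), F.one]
    push_cast
    ring
  Ql a := by
    have h1 := F.wsum a
    unfold QQ
    have e1 : ∑ b, la b * (nn (LM (h b) (LM (h a) (vac : Fk J))) / 16) =
        (∑ b, la b * nn (LM (h b) (LM (h a) (vac : Fk J)))) / 16 := by
      rw [Finset.sum_div]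
      exact Finset.sum_congr rfl fun b _ => by ring
    rw [e1, h1, h6]
    push_cast
    ring
  Qb v := F.Qb h6 v
  ls := by
    rw [F.sum, h6]
    push_cast
    ring
  C0 a b := CC_nonneg h a b
  C2 a b := F.fam.CC_le a b
  Cs a := by
    rw [F.CCsum, h6]
    push_cast
    ring
  Cl a := F.CClam a

/-- the cubic sum as the value of the operator -/
theorem cube_eq (h : Pr J → Matrix J J ℝ) (la : Pr J → ℝ) :
    ((Op la (nu h)) ^ 3) nn vac = 64 * T3 (PP h) la la la := by
  rw [pow_succ, pow_two, Module.End.mul_apply, Module.End.mul_apply, Op_apply]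
  unfold T3
  rw [Finset.mul_sum]
  refine Finset.sum_congr rfl fun a _ => ?_
  rw [Op_apply, Finset.mul_sum, Finset.mul_sum]
  refine Finset.sum_congr rfl fun b _ => ?_
  rw [Op_apply, Finset.mul_sum, Finset.mul_sum, Finset.mul_sum]
  refine Finset.sum_congr rfl fun d _ => ?_
  have e1 : nn (L (nu h d) (L (nu h b) (L (nu h a) (vac : Fk J)))) =
      nn (LM (h d) (LM (h b) (LM (h a) (vac : Fk J)))) := rfl
  rw [e1]
  unfold PP
  ring

/-- the sign of the cubic sum -/
theorem SF.sign (F : SF h la c ρ) (h6 : Fintype.card J = 6)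
    (h4 : ∀ T : Finset (Pr J), T.card = 4 → 0 ≤ ∑ a ∈ T, la a) :
    0 ≤ ((Op la (nu h)) ^ 3) nn vac ∧
      ((∃ a, la a < 0) → 0 < ((Op la (nu h)) ^ 3) nn vac) := by
  obtain ⟨h1, h2⟩ := (F.dat h6).final h4
  rw [cube_eq]
  exact ⟨by linarith, fun h => by linarith [h2 h]⟩

end Run7.h512.EK
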