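import Pool.Agent.Run7.h512.EK.Pt
import Pool.Agent.TH594.HP.Field
import Pool.Agent.W714.ES.Sharp

/-!
# Four-nonnegative curvature operators, and a six-nonnegative one with the wrong sign
-/

set_option autoImplicit false

namespace Run7.h512.EK

open Finset Pool.Agent.TH594.HP Pool.Agent.TH594.HE
open Pool.Agent.W666.GB (AlgCurv gbc unitCurv)
open Pool.Agent.W669.HD (T4 gm cp negT gbc_eq)

section pos

variable {m : ℕ} {V : Type} [NormedAddCommGroup V] [InnerProductSpace ℝ V]

/-- The curvature operator is `k`-nonnegative: the sum of its values at `k` orthonormal two-forms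
is never negative; equivalently, the sum of its `k` smallest eigenvalues is not negative. -/
def KNonneg (k : ℕ) (e : OrthonormalBasis (Fin m × Bool) ℝ V) (R : V → V → V → V → ℝ) : Prop :=
  ∀ α : Fin k → Matrix (Fin m × Bool) (Fin m × Bool) ℝ, (∀ a, Sk (α a)) →
    (∀ a b, sp (α a) (α b) = if a = b then 1 else 0) → 0 ≤ ∑ a, curvQ e R (α a)

theorem curvQ_neg (e : OrthonormalBasis (Fin m × Bool) ℝ V) (R : V → V → V → V → ℝ)
    (α : Matrix (Fin m × Bool) (Fin m × Bool) ℝ) : curvQ e (negT R) α = -curvQ e R α := by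
  unfold curvQ negT
  simp only [mul_neg, Finset.sum_neg_distrib]

/-- **the pointwise sign, nonnegative version** -/
theorem pt_pos (e : OrthonormalBasis (Fin 3 × Bool) ℝ V) {R : V → V → V → V → ℝ}
    (hR : AlgCurv R) {κ : ℝ} (hE : Einstein e R κ) (h4 : KNonneg 4 e R) :
    0 ≤ gbc e R ∧ ((∃ α, Sk α ∧ curvQ e R α < 0) → 0 < gbc e R) := by
  have hC : AlgCurv (negT R) := neg_curv hR
  have hE' : Einstein e (negT R) (-κ) := by
    intro y w
    have := hE y w
    simp only [negT, Finset.sum_neg_distrib]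
    rw [this]; ring
  have h4' : KNonpos 4 e (negT R) := by
    intro α h1 h2
    have := h4 α h1 h2
    simp only [curvQ_neg, Finset.sum_neg_distrib]
    linarith
  obtain ⟨h1, h2⟩ := pt_sign e hC hE' h4'
  rw [gbc_neg] at h1 h2
  refine ⟨h1, ?_⟩
  rintro ⟨α, hα, h3⟩
  exact h2 ⟨α, hα, by rw [curvQ_neg]; linarith⟩

end pos

/-! ### the example -/

section ex

open Pool.Agent.W714.ES (E6 w6 Rex be)

/-- the numbering of the basis -/
def nb : Fin 6 ≃ Fin 3 × Bool where
  toFun := ![(0, false), (0, true), (1, false), (1, true), (2, false), (2, true)]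
  invFun := fun p => match p with
    | (0, false) => 0
    | (0, true) => 1
    | (1, false) => 2
    | (1, true) => 3
    | (2, false) => 4
    | (2, true) => 5
  left_inv := by intro i; fin_cases i <;> rfl
  right_inv := by rintro ⟨i, b⟩; fin_cases i <;> cases b <;> rfl

variable {V : Type} [NormedAddCommGroup V] [InnerProductSpace ℝ V]

theorem gbc_nb (e : OrthonormalBasis (Fin 6) ℝ V) (R : V → V → V → V → ℝ) :
    gbc (e.reindex nb) R = Hopf6.gbc e R := by
  unfold gbc Hopf6.gbc Hopf6.gb Hopf6.tn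
  have h6 : ((Nat.factorial 3 : ℕ) : ℝ) = 6 := by norm_num [Nat.factorial]
  rw [h6]
  congr 1
  rw [← Equiv.sum_comp (Equiv.permCongr nb)]
  refine Finset.sum_congr rfl fun σ _ => ?_
  rw [← Equiv.sum_comp (Equiv.permCongr nb)]
  refine Finset.sum_congr rfl fun τ _ => ?_
  rw [Equiv.Perm.sign_permCongr, Equiv.Perm.sign_permCongr]
  congr 1
  have hs : ∀ (υ : Equiv.Perm (Fin 6)) (j : Fin 3 × Bool),
      (e.reindex nb) (Equiv.permCongr nb υ j) = e (υ (nb.symm j)) := by
    intro υ j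
    rw [OrthonormalBasis.reindex_apply, Equiv.permCongr_apply, Equiv.symm_apply_apply]
  simp only [hs, Fin.prod_univ_three]
  rfl

/-- the flip of a pair -/
def fl (j : Fin 3 × Bool) : Fin 3 × Bool := (j.1, !j.2)

theorem fl_fl (j : Fin 3 × Bool) : fl (fl j) = j := by
  rcases j with ⟨i, b⟩
  simp [fl]

/-- the sign of an index -/
def sg (j : Fin 3 × Bool) : ℝ := if j.2 then 1 else -1

theorem sg_sq (j : Fin 3 × Bool) : sg j ^ 2 = 1 := by
  unfold sg
  split_ifs <;> norm_num

/-- the orthonormal basis of the example -/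
noncomputable def eb : OrthonormalBasis (Fin 3 × Bool) ℝ E6 := be.reindex nb

theorem w6_eb (i j : Fin 3 × Bool) : w6 (eb i) (eb j) = if j = fl i then sg i else 0 := by
  have h1 : ∀ i, eb i = be (nb.symm i) := fun i => by
    unfold eb
    rw [OrthonormalBasis.reindex_apply]
  rw [h1, h1]
  unfold w6
  simp only [Pool.Agent.W714.ES.be_apply]
  rcases i with ⟨i, b⟩
  rcases j with ⟨j, c⟩
  fin_cases i <;> fin_cases j <;> cases b <;> cases c <;> simp [nb, fl, sg]

theorem in_eb (i j : Fin 3 × Bool) : inner ℝ (eb i) (eb j) = if i = j then (1 : ℝ) else 0 :=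
  inner_basis eb i j

theorem sum_fl (F : Fin 3 × Bool → ℝ) : ∑ j, F (fl j) = ∑ j, F j :=
  Equiv.sum_comp (⟨fl, fl, fl_fl, fl_fl⟩ : Fin 3 × Bool ≃ Fin 3 × Bool) F

/-- the two-form of the complex structure -/
noncomputable def om : Matrix (Fin 3 × Bool) (Fin 3 × Bool) ℝ := fun i j =>
  if j = fl i then sg i else 0

theorem four_lin (p a b c d : ℝ) (A B C D E : Fin 3 × Bool → Fin 3 × Bool → Fin 3 × Bool →
    Fin 3 × Bool → ℝ) : ∑ i, ∑ j, ∑ k, ∑ l, (p * A i j k l - a * B i j k l - b * C i j k l +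
      c * D i j k l - d * E i j k l) = p * (∑ i, ∑ j, ∑ k, ∑ l, A i j k l) -
      a * (∑ i, ∑ j, ∑ k, ∑ l, B i j k l) - b * (∑ i, ∑ j, ∑ k, ∑ l, C i j k l) +
      c * (∑ i, ∑ j, ∑ k, ∑ l, D i j k l) - d * (∑ i, ∑ j, ∑ k, ∑ l, E i j k l) := by
  simp only [Finset.sum_add_distrib, Finset.sum_sub_distrib, Finset.mul_sum]

theorem curvQ_Rex (p q : ℝ) (α : Matrix (Fin 3 × Bool) (Fin 3 × Bool) ℝ) (hα : Sk α) :
    curvQ eb (Rex p q) α = p * sp α α -
      q / 6 * (∑ i, ∑ j, α i j * (sg i * sg j * α (fl i) (fl j))) - 2 / 3 * q * sp α om ^ 2 := by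
  have e1 : ∀ i j k l, α i j * α k l * Rex p q (eb i) (eb j) (eb k) (eb l) =
      p * (α i j * α k l * ((if i = k then 1 else 0) * (if j = l then 1 else 0))) -
      p * (α i j * α k l * ((if i = l then 1 else 0) * (if j = k then 1 else 0))) -
      q / 3 * (α i j * α k l * ((if k = fl i then sg i else 0) * (if l = fl j then sg j else 0))) +
      q / 3 * (α i j * α k l * ((if l = fl i then sg i else 0) * (if k = fl j then sg j else 0))) -
      2 / 3 * q * ((α i j * (if j = fl i then sg i else 0)) *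
        (α k l * (if l = fl k then sg k else 0))) := by
    intro i j k l
    unfold Rex
    rw [w6_eb, w6_eb, w6_eb, w6_eb, w6_eb, w6_eb, in_eb, in_eb, in_eb, in_eb]
    ring
  have f1 : ∑ i, ∑ j, ∑ k, ∑ l, α i j * α k l *
      ((if i = k then (1 : ℝ) else 0) * (if j = l then 1 else 0)) = ∑ i, ∑ j, α i j * α i j := by
    refine Finset.sum_congr rfl fun i _ => Finset.sum_congr rfl fun j _ => ?_
    rw [Finset.sum_eq_single i, Finset.sum_eq_single j]
    · simp
    · intro l _ hl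
      rw [if_neg (Ne.symm hl)]; ring
    · simp
    · intro k _ hk
      refine Finset.sum_eq_zero fun l _ => ?_
      rw [if_neg (Ne.symm hk)]; ring
    · simp
  have f2 : ∑ i, ∑ j, ∑ k, ∑ l, α i j * α k l *
      ((if i = l then (1 : ℝ) else 0) * (if j = k then 1 else 0)) = -∑ i, ∑ j, α i j * α i j := by
    rw [← Finset.sum_neg_distrib]
    refine Finset.sum_congr rfl fun i _ => ?_
    rw [← Finset.sum_neg_distrib]
    refine Finset.sum_congr rfl fun j _ => ?_
    rw [Finset.sum_eq_single j, Finset.sum_eq_single i]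
    · rw [hα i j]; simp
    · intro l _ hl
      rw [if_neg (Ne.symm hl)]; ring
    · simp
    · intro k _ hk
      refine Finset.sum_eq_zero fun l _ => ?_
      rw [if_neg (Ne.symm hk)]; ring
    · simp
  have f3 : ∑ i, ∑ j, ∑ k, ∑ l, α i j * α k l *
      ((if k = fl i then sg i else 0) * (if l = fl j then sg j else 0)) =
      ∑ i, ∑ j, α i j * (sg i * sg j * α (fl i) (fl j)) := by
    refine Finset.sum_congr rfl fun i _ => Finset.sum_congr rfl fun j _ => ?_
    rw [Finset.sum_eq_single (fl i), Finset.sum_eq_single (fl j)]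
    · simp; ring
    · intro l _ hl
      rw [if_neg hl]; ring
    · simp
    · intro k _ hk
      refine Finset.sum_eq_zero fun l _ => ?_
      rw [if_neg hk]; ring
    · simp
  have f4 : ∑ i, ∑ j, ∑ k, ∑ l, α i j * α k l *
      ((if l = fl i then sg i else 0) * (if k = fl j then sg j else 0)) =
      -∑ i, ∑ j, α i j * (sg i * sg j * α (fl i) (fl j)) := by
    rw [← Finset.sum_neg_distrib]
    refine Finset.sum_congr rfl fun i _ => ?_
    rw [← Finset.sum_neg_distrib]
    refine Finset.sum_congr rfl fun j _ => ?_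
    rw [Finset.sum_eq_single (fl j), Finset.sum_eq_single (fl i)]
    · rw [hα (fl i) (fl j)]; simp; ring
    · intro l _ hl
      rw [if_neg hl]; ring
    · simp
    · intro k _ hk
      refine Finset.sum_eq_zero fun l _ => ?_
      rw [if_neg hk]; ring
    · simp
  have f5 : ∑ i, ∑ j, ∑ k, ∑ l, (α i j * (if j = fl i then sg i else 0)) *
      (α k l * (if l = fl k then sg k else 0)) = 4 * sp α om ^ 2 := by
    have g1 : sp α om = 1 / 2 * ∑ i, ∑ j, α i j * (if j = fl i then sg i else 0) := rfl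
    rw [g1]
    have g2 : ∀ X : ℝ, 4 * (1 / 2 * X) ^ 2 = X * X := fun X => by ring
    rw [g2, Finset.sum_mul]
    refine Finset.sum_congr rfl fun i _ => ?_
    rw [Finset.sum_mul]
    refine Finset.sum_congr rfl fun j _ => ?_
    rw [Finset.mul_sum]
    refine Finset.sum_congr rfl fun k _ => ?_
    rw [Finset.mul_sum]
  have f6 : sp α α = 1 / 2 * ∑ i, ∑ j, α i j * α i j := rfl
  unfold curvQ
  simp only [e1]
  rw [four_lin, f1, f2, f3, f4, f5, f6]
  ring

theorem fl_le (α : Matrix (Fin 3 × Bool) (Fin 3 × Bool) ℝ) :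
    ∑ i, ∑ j, α i j * (sg i * sg j * α (fl i) (fl j)) ≤ 2 * sp α α := by
  have h1 : ∑ i, ∑ j, α i j * (sg i * sg j * α (fl i) (fl j)) ≤
      ∑ i, ∑ j, (1 / 2 * (α i j * α i j) + 1 / 2 * (α (fl i) (fl j) * α (fl i) (fl j))) := by
    refine Finset.sum_le_sum fun i _ => Finset.sum_le_sum fun j _ => ?_
    have e1 := sg_sq i
    have e2 := sg_sq j
    have e3 : (sg i * sg j) ^ 2 = 1 := by rw [mul_pow, e1, e2, one_mul]
    nlinarith [sq_nonneg (α i j - sg i * sg j * α (fl i) (fl j)), e3]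
  have h2 : ∑ i, ∑ j, α (fl i) (fl j) * α (fl i) (fl j) = ∑ i, ∑ j, α i j * α i j := by
    rw [sum_fl (fun i => ∑ j, α i (fl j) * α i (fl j))]
    refine Finset.sum_congr rfl fun i _ => ?_
    exact sum_fl (fun j => α i j * α i j)
  simp only [Finset.sum_add_distrib, ← Finset.mul_sum] at h1
  rw [h2] at h1
  unfold sp
  linarith

theorem sp_om : sp om om = 3 := by
  have h1 : ∀ i : Fin 3 × Bool, ∑ j, om i j * om i j = 1 := by
    intro i
    rw [Finset.sum_eq_single (fl i)]
    · have := sg_sq i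
      unfold om
      rw [if_pos rfl, ← pow_two, this]
    · intro j _ hj
      unfold om
      rw [if_neg hj, mul_zero]
    · simp
  unfold sp
  rw [Finset.sum_congr rfl fun i _ => h1 i]
  simp
  norm_num

theorem sp_lin {k : ℕ} (c : Fin k → ℝ) (β δ : Matrix (Fin 3 × Bool) (Fin 3 × Bool) ℝ)
    (α : Fin k → Matrix (Fin 3 × Bool) (Fin 3 × Bool) ℝ) :
    sp (fun i j => β i j - ∑ a, c a * α a i j) δ = sp β δ - ∑ a, c a * sp (α a) δ := by
  have h1 : ∑ a, c a * (1 / 2 * ∑ i, ∑ j, α a i j * δ i j) =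
      1 / 2 * ∑ i, ∑ j, ∑ a, c a * α a i j * δ i j := by
    rw [Finset.mul_sum]
    calc ∑ a, c a * (1 / 2 * ∑ i, ∑ j, α a i j * δ i j) =
        ∑ a, ∑ i, ∑ j, 1 / 2 * (c a * α a i j * δ i j) := by
          refine Finset.sum_congr rfl fun a _ => ?_
          rw [Finset.mul_sum, Finset.mul_sum]
          refine Finset.sum_congr rfl fun i _ => ?_
          rw [Finset.mul_sum, Finset.mul_sum]
          exact Finset.sum_congr rfl fun j _ => by ring
      _ = ∑ i, ∑ a, ∑ j, 1 / 2 * (c a * α a i j * δ i j) := Finset.sum_comm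
      _ = ∑ i, 1 / 2 * ∑ j, ∑ a, c a * α a i j * δ i j := by
          refine Finset.sum_congr rfl fun i _ => ?_
          rw [Finset.sum_comm, Finset.mul_sum]
          refine Finset.sum_congr rfl fun j _ => ?_
          rw [Finset.mul_sum]
  unfold sp
  rw [h1, ← mul_sub, ← Finset.sum_sub_distrib]
  congr 1
  refine Finset.sum_congr rfl fun i _ => ?_
  rw [← Finset.sum_sub_distrib]
  refine Finset.sum_congr rfl fun j _ => ?_
  rw [sub_mul, Finset.sum_mul]

/-- Bessel's inequality -/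
theorem bessel {k : ℕ} {α : Fin k → Matrix (Fin 3 × Bool) (Fin 3 × Bool) ℝ}
    (h : ∀ a b, sp (α a) (α b) = if a = b then 1 else 0)
    (β : Matrix (Fin 3 × Bool) (Fin 3 × Bool) ℝ) : ∑ a, sp (α a) β ^ 2 ≤ sp β β := by
  set γ : Matrix (Fin 3 × Bool) (Fin 3 × Bool) ℝ := fun i j =>
    β i j - ∑ a, sp (α a) β * α a i j with hγ
  have h0 : 0 ≤ sp γ γ := by
    unfold sp
    have : 0 ≤ ∑ i, ∑ j, γ i j * γ i j :=
      Finset.sum_nonneg fun i _ => Finset.sum_nonneg fun j _ => mul_self_nonneg _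
    linarith
  have e1 : ∀ δ : Matrix (Fin 3 × Bool) (Fin 3 × Bool) ℝ,
      sp γ δ = sp β δ - ∑ a, sp (α a) β * sp (α a) δ := fun δ =>
    sp_lin (fun a => sp (α a) β) β δ α
  have sym : ∀ δ ε : Matrix (Fin 3 × Bool) (Fin 3 × Bool) ℝ, sp δ ε = sp ε δ := by
    intro δ ε
    unfold sp
    congr 1
    exact Finset.sum_congr rfl fun i _ => Finset.sum_congr rfl fun j _ => mul_comm _ _
  have e4 : ∀ b, sp γ (α b) = 0 := by
    intro b
    rw [e1, Finset.sum_eq_single b]
    · rw [h, if_pos rfl, sym β]; ring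
    · intro a _ hab
      rw [h, if_neg hab, mul_zero]
    · simp
  have e5 : sp γ γ = sp β β - ∑ a, sp (α a) β ^ 2 := by
    rw [e1 γ, sym β γ, e1 β]
    have : ∑ a, sp (α a) β * sp (α a) γ = 0 :=
      Finset.sum_eq_zero fun a _ => by rw [sym (α a) γ, e4, mul_zero]
    rw [this, sub_zero]
    congr 1
    exact Finset.sum_congr rfl fun a _ => by ring
  linarith

/-- the example is six-nonnegative -/
theorem ex_six : KNonneg 6 eb (Rex (10 / 7) (15 / 7)) := by
  intro α hα h
  have h1 : ∀ a, 5 / 7 - 10 / 7 * sp (α a) om ^ 2 ≤ curvQ eb (Rex (10 / 7) (15 / 7)) (α a) := by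
    intro a
    rw [curvQ_Rex _ _ _ (hα a)]
    have e1 := fl_le (α a)
    rw [h a a, if_pos rfl] at *
    linarith
  have h2 := bessel h om
  rw [sp_om] at h2
  have h3 : ∑ a : Fin 6, (5 / 7 - 10 / 7 * sp (α a) om ^ 2) ≤
      ∑ a, curvQ eb (Rex (10 / 7) (15 / 7)) (α a) := Finset.sum_le_sum fun a _ => h1 a
  rw [Finset.sum_sub_distrib, ← Finset.mul_sum, Finset.sum_const, Finset.card_univ,
    Fintype.card_fin, nsmul_eq_mul] at h3
  push_cast at h3
  linarith

theorem ex_Einstein : Einstein eb (Rex (10 / 7) (15 / 7)) 1 := by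
  intro y w
  have h1 : ∑ i, Rex (10 / 7) (15 / 7) (eb i) y (eb i) w =
      ∑ i, Rex (10 / 7) (15 / 7) (be i) y (be i) w := by
    unfold eb
    rw [← Equiv.sum_comp nb]
    refine Finset.sum_congr rfl fun i _ => ?_
    rw [OrthonormalBasis.reindex_apply, Equiv.symm_apply_apply]
  rw [h1, Pool.Agent.W714.ES.Rex_ein]
  push_cast
  ring

theorem ex_gbc : gbc eb (Rex (10 / 7) (15 / 7)) < 0 := by
  unfold eb
  rw [gbc_nb]
  have h := Pool.Agent.W714.ES.sharp (10 / 7) 1
  have e1 : (10 / 7 * 1 : ℝ) = 10 / 7 := by norm_num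
  have e2 : ((5 * (10 / 7) - 5) * 1 : ℝ) = 15 / 7 := by norm_num
  rw [e1, e2] at h
  rw [h]
  have h2 : (0 : ℝ) < Hopf6.roundGB 1 := by
    unfold Hopf6.roundGB
    have := Real.pi_pos
    positivity
  have h3 : Pool.Agent.W714.ES.pol (10 / 7) < 0 := by
    unfold Pool.Agent.W714.ES.pol
    norm_num
  have h4 : Pool.Agent.W714.ES.pol (10 / 7) / 135 < 0 := by linarith
  exact mul_neg_of_neg_of_pos h4 h2

theorem ex_curv : AlgCurv (Rex (10 / 7) (15 / 7)) := by
  have h := Pool.Agent.W714.ES.Rex_curv (10 / 7) (15 / 7)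
  exact ⟨h.add, h.smul, h.anti, h.pair, h.bianchi⟩

/-- the negative of the example -/
theorem ex_neg : AlgCurv (negT (Rex (10 / 7) (15 / 7))) ∧
    Einstein eb (negT (Rex (10 / 7) (15 / 7))) (-1) ∧ KNonpos 6 eb (negT (Rex (10 / 7) (15 / 7))) ∧
    0 < gbc eb (negT (Rex (10 / 7) (15 / 7))) := by
  refine ⟨neg_curv ex_curv, ?_, ?_, ?_⟩
  · intro y w
    have := ex_Einstein y w
    simp only [negT, Finset.sum_neg_distrib]
    rw [this]; ring
  · intro α h1 h2
    have := ex_six α h1 h2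
    simp only [curvQ_neg, Finset.sum_neg_distrib]
    linarith
  · have h1 := gbc_neg eb (Rex (10 / 7) (15 / 7))
    have h2 := ex_gbc
    rw [← h1] at h2
    norm_num at h2
    linarith

end ex

end Run7.h512.EK
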