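import Pool.Agent.Run7.h512.EK.SDec

/-!
# The pointwise sign for Einstein curvature tensors with four-nonpositive curvature operator
-/

set_option autoImplicit false

namespace Run7.h512.EK

open Finset Pool.Agent.TH594.HP Pool.Agent.TH594.HE
open Pool.Agent.W666.GB (AlgCurv gbc unitCurv)
open Pool.Agent.W669.HD (T4 gm cp negT gbc_eq)

variable {m : ℕ} {V : Type} [NormedAddCommGroup V] [InnerProductSpace ℝ V]

/-- the quadratic form of the curvature operator of `R` at the two-form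
`∑_{i < j} α i j e_i ∧ e_j` -/
noncomputable def curvQ (e : OrthonormalBasis (Fin m × Bool) ℝ V) (R : V → V → V → V → ℝ)
    (α : Matrix (Fin m × Bool) (Fin m × Bool) ℝ) : ℝ :=
  1 / 4 * ∑ i, ∑ j, ∑ k, ∑ l, α i j * α k l * R (e i) (e j) (e k) (e l)

/-- The curvature operator is `k`-nonpositive: the sum of its values at `k` orthonormal two-forms
is never positive; equivalently, the sum of its `k` largest eigenvalues is not positive. -/
def KNonpos (k : ℕ) (e : OrthonormalBasis (Fin m × Bool) ℝ V) (R : V → V → V → V → ℝ) : Prop :=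
  ∀ α : Fin k → Matrix (Fin m × Bool) (Fin m × Bool) ℝ, (∀ a, Sk (α a)) →
    (∀ a b, sp (α a) (α b) = if a = b then 1 else 0) → ∑ a, curvQ e R (α a) ≤ 0

theorem quad_eq {J : Type*} [Fintype J] [DecidableEq J] {h : Pr J → Matrix J J ℝ} {la : Pr J → ℝ}
    (G : J → J → J → J → ℝ) (hG : ∀ i j k l, G i j k l = ∑ p, la p * (h p i j * h p k l))
    (α : Matrix J J ℝ) :
    ∑ i, ∑ j, ∑ k, ∑ l, α i j * α k l * G i j k l = 4 * ∑ p, la p * sp α (h p) ^ 2 := by
  have e1 : ∀ p, 4 * (la p * sp α (h p) ^ 2) =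
      ∑ i, ∑ j, ∑ k, ∑ l, α i j * α k l * (la p * (h p i j * h p k l)) := by
    intro p
    have e2 : 4 * (la p * sp α (h p) ^ 2) =
        la p * ((∑ i, ∑ j, α i j * h p i j) * (∑ k, ∑ l, α k l * h p k l)) := by
      unfold sp
      ring
    rw [e2, Finset.sum_mul, Finset.mul_sum]
    refine Finset.sum_congr rfl fun i _ => ?_
    rw [Finset.sum_mul, Finset.mul_sum]
    refine Finset.sum_congr rfl fun j _ => ?_
    rw [Finset.mul_sum, Finset.mul_sum]
    refine Finset.sum_congr rfl fun k _ => ?_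
    rw [Finset.mul_sum, Finset.mul_sum]
    exact Finset.sum_congr rfl fun l _ => by ring
  rw [Finset.mul_sum]
  simp only [e1, hG, Finset.mul_sum]
  rw [Finset.sum_comm (s := (Finset.univ : Finset (Pr J)))]
  refine Finset.sum_congr rfl fun i _ => ?_
  rw [Finset.sum_comm (s := (Finset.univ : Finset (Pr J)))]
  refine Finset.sum_congr rfl fun j _ => ?_
  rw [Finset.sum_comm (s := (Finset.univ : Finset (Pr J)))]
  refine Finset.sum_congr rfl fun k _ => ?_
  rw [Finset.sum_comm (s := (Finset.univ : Finset (Pr J)))]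

/-- the signed eigenfamily of an Einstein curvature tensor -/
theorem reduceS (e : OrthonormalBasis (Fin m × Bool) ℝ V) {R : V → V → V → V → ℝ}
    (hR : AlgCurv R) {κ : ℝ} (hE : Einstein e R (-κ)) :
    ∃ (g : Pr (Fin m × Bool) → Matrix (Fin m × Bool) (Fin m × Bool) ℝ)
      (la : Pr (Fin m × Bool) → ℝ) (c : ℝ), SF g la c ((2 * m - 1) * κ) ∧
      (-1) ^ m * gbc e R = 1 / ((8 * Real.pi) ^ m * m.factorial) * ((Op la (nu g)) ^ m) nn vac ∧
      ∀ α : Matrix (Fin m × Bool) (Fin m × Bool) ℝ,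
        curvQ e R α = -∑ p, la p * sp α (g p) ^ 2 := by
  have hC : AlgCurv (negT R) := neg_curv hR
  obtain ⟨G, hG⟩ : ∃ G : (Fin m × Bool) → (Fin m × Bool) → (Fin m × Bool) → (Fin m × Bool) → ℝ,
      ∀ i j k l, G i j k l = negT R (e i) (e j) (e k) (e l) := ⟨_, fun _ _ _ _ => rfl⟩
  obtain ⟨g, la, c, hF, hg⟩ := exists_SF G
    (fun i j k l => by rw [hG, hG, hC.anti])
    (fun i j k l => by
      rw [hG, hG, hC.pair, hC.anti, hC.pair])
    (fun i j k l => by rw [hG, hG, hC.pair])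
    (fun i j k l => by rw [hG, hG, hG]; exact hC.bianchi _ _ _ _)
    (ρ := (2 * m - 1) * κ)
    (fun j l => by
      have h1 := hE (e j) (e l)
      rw [inner_basis] at h1
      simp only [hG, negT, Finset.sum_neg_distrib]
      rw [h1]
      split_ifs <;> ring)
  refine ⟨g, la, c, hF, ?_, ?_⟩
  · rw [gbc_eq]
    congr 1
    refine gm_op la (nu g) _ fun i j k l => ?_
    have := hg i j k l
    rw [hG] at this
    exact this
  · intro α
    have h1 := quad_eq G hg α
    have h2 : ∑ i, ∑ j, ∑ k, ∑ l, α i j * α k l * G i j k l =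
        -∑ i, ∑ j, ∑ k, ∑ l, α i j * α k l * R (e i) (e j) (e k) (e l) := by
      simp only [hG, negT, mul_neg, Finset.sum_neg_distrib]
    unfold curvQ
    rw [h2] at h1
    linarith

/-- **the pointwise sign** -/
theorem pt_sign (e : OrthonormalBasis (Fin 3 × Bool) ℝ V) {R : V → V → V → V → ℝ}
    (hR : AlgCurv R) {κ : ℝ} (hE : Einstein e R (-κ)) (h4 : KNonpos 4 e R) :
    0 ≤ (-1) ^ 3 * gbc e R ∧
      ((∃ α, Sk α ∧ 0 < curvQ e R α) → 0 < (-1) ^ 3 * gbc e R) := by
  obtain ⟨g, la, c, F, hg, hq⟩ := reduceS e hR hE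
  have hπ := Real.pi_pos
  have hC : 0 < 1 / ((8 * Real.pi) ^ 3 * ((Nat.factorial 3 : ℕ) : ℝ)) := by positivity
  have hT : ∀ T : Finset (Pr (Fin 3 × Bool)), T.card = 4 → 0 ≤ ∑ a ∈ T, la a := by
    intro T hT
    obtain ⟨f⟩ : Nonempty (Fin 4 ≃ T) := ⟨(Finset.equivFinOfCardEq hT).symm⟩
    have h1 := h4 (fun a => g (f a)) (fun a => F.sk _) (fun a b => by
      by_cases hab : a = b
      · subst hab
        rw [F.one, if_pos rfl]
      · rw [if_neg hab]
        refine F.orth fun h => hab (f.injective (Subtype.ext h)))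
    have h2 : ∀ p, curvQ e R (g p) = -la p := by
      intro p
      rw [hq, Finset.sum_eq_single p]
      · rw [F.one]; ring
      · intro q _ hqp
        rw [F.orth (Ne.symm hqp)]; ring
      · simp
    simp only [h2, Finset.sum_neg_distrib] at h1
    have h3 : ∑ a : Fin 4, la (f a) = ∑ a ∈ T, la a := by
      rw [← Finset.sum_coe_sort T la]
      exact Equiv.sum_comp f fun x : T => la x
    rw [h3] at h1
    linarith
  have h6 : Fintype.card (Fin 3 × Bool) = 6 := by simp
  obtain ⟨h1, h2⟩ := F.sign h6 hT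
  rw [hg]
  refine ⟨mul_nonneg hC.le h1, ?_⟩
  rintro ⟨α, -, hα⟩
  refine mul_pos hC (h2 ?_)
  by_contra hcon
  have h3 : ∀ p, 0 ≤ la p := by
    intro p
    by_contra hp
    exact hcon ⟨p, not_le.1 hp⟩
  rw [hq] at hα
  have : 0 ≤ ∑ p, la p * sp α (g p) ^ 2 :=
    Finset.sum_nonneg fun p _ => mul_nonneg (h3 p) (sq_nonneg _)
  linarith

end Run7.h512.EK
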