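import Pool.Agent.TH594.HE.Pt

/-!
# Sum rules for the eigenforms of an Einstein curvature operator in dimension six
-/

set_option autoImplicit false

namespace Run7.h512.EK

open Finset Pool.Agent.TH594.HP Pool.Agent.TH594.HE

section gen

variable {J : Type*} [Fintype J] [DecidableEq J]

/-- orthonormal and complete family of skew matrices, with signed weights whose shift by `c` is
nonnegative -/
structure SF (h : Pr J → Matrix J J ℝ) (la : Pr J → ℝ) (c ρ : ℝ) : Prop where
  fam : Fam h (fun p => la p + c) (ρ + ((Fintype.card J : ℝ) - 1) * c)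
  comp : ∀ i j k l, ∑ p, h p i j * h p k l =
        (if i = k then 1 else 0) * (if j = l then 1 else 0) -
          (if i = l then 1 else 0) * (if j = k then 1 else 0)

theorem Dg_an {d : ℕ} {f : Fk J} (h : Dg (d + 1) f) (i : J) : Dg d (an i f) := by
  intro S hS
  rw [an_apply] at hS
  by_cases hi : i ∈ S
  · rw [if_pos hi] at hS
    exact absurd rfl hS
  · rw [if_neg hi] at hS
    have := h _ (right_ne_zero_of_mul hS)
    rw [Finset.card_insert_of_notMem hi] at this
    omega

theorem an_self (i : J) (f : Fk J) : an i (an i f) = 0 := by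
  have h := an_an i i f
  exact self_eq_neg.mp h

/-- the contractions of the unit family -/
theorem An_unit {h : Pr J → Matrix J J ℝ}
    (hc : ∀ i j k l, ∑ p, h p i j * h p k l =
        (if i = k then 1 else 0) * (if j = l then 1 else 0) -
          (if i = l then 1 else 0) * (if j = k then 1 else 0)) {d : ℕ} {f : Fk J}
    (hf : Dg (d + 2) f) : An (nu h) f = 2 * (d + 2) * (d + 1) * nn f := by
  rw [An_eq]
  have h1 : ∀ i j k l, EE (nu h) i j k l =
      dl i k * dl j l - dl i l * dl j k := by
    intro i j k l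
    unfold EE nu dl
    exact hc i j k l
  have h2 : ∑ i, ∑ j, ∑ k, ∑ l, EE (nu h) i j k l * ip (an i (an j f)) (an k (an l f)) =
      ∑ i, ∑ j, ∑ k, ∑ l, (dl i k * (dl j l * ip (an i (an j f)) (an k (an l f))) +
        (-(dl i l * (dl j k * ip (an i (an j f)) (an k (an l f)))))) := by
    refine Finset.sum_congr rfl fun i _ => Finset.sum_congr rfl fun j _ =>
      Finset.sum_congr rfl fun k _ => Finset.sum_congr rfl fun l _ => ?_
    rw [h1]; ring
  rw [h2, sum4_add]
  simp only [Finset.sum_neg_distrib]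
  rw [s_ik (fun i j k l => dl j l * ip (an i (an j f)) (an k (an l f))),
    s_il (fun i j k l => dl j k * ip (an i (an j f)) (an k (an l f)))]
  have h3 : ∑ i, ∑ j, ∑ l, dl j l * ip (an i (an j f)) (an i (an l f)) =
      ∑ i, ∑ j, nn (an i (an j f)) := by
    refine Finset.sum_congr rfl fun i _ => Finset.sum_congr rfl fun j _ => ?_
    rw [Finset.sum_eq_single j]
    · simp [dl, nn]
    · intro l _ hl
      rw [dl, if_neg (Ne.symm hl), zero_mul]
    · simp
  have h4 : ∑ i, ∑ j, ∑ k, dl j k * ip (an i (an j f)) (an k (an i f)) =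
      -∑ i, ∑ j, nn (an i (an j f)) := by
    rw [← Finset.sum_neg_distrib]
    refine Finset.sum_congr rfl fun i _ => ?_
    rw [← Finset.sum_neg_distrib]
    refine Finset.sum_congr rfl fun j _ => ?_
    rw [Finset.sum_eq_single j]
    · rw [an_an j i, ip_neg_right]
      simp [dl, nn]
    · intro l _ hl
      rw [dl, if_neg (Ne.symm hl), zero_mul]
    · simp
  rw [h3, h4]
  have h5 : ∑ i, ∑ j, nn (an i (an j f)) = (d + 2) * (d + 1) * nn f := by
    rw [Finset.sum_comm]
    have h6 : ∀ j, ∑ i, nn (an i (an j f)) = ((d + 1 : ℕ) : ℝ) * nn (an j f) := fun j =>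
      sum_nn_an (Dg_an hf j)
    simp only [h6, ← Finset.mul_sum]
    rw [sum_nn_an hf]
    push_cast
    ring
  rw [h5]; ring

variable {h : Pr J → Matrix J J ℝ} {la : Pr J → ℝ} {c ρ : ℝ}

theorem SF.sk (F : SF h la c ρ) (p : Pr J) : Sk (h p) := F.fam.eh.sk p

theorem SF.one (F : SF h la c ρ) (p : Pr J) : sp (h p) (h p) = 1 := F.fam.oh.1 p

theorem SF.orth (F : SF h la c ρ) {p q : Pr J} (hpq : p ≠ q) : sp (h p) (h q) = 0 :=
  F.fam.oh.2 p q hpq

/-- the sum of the weights -/
theorem SF.sum (F : SF h la c ρ) : ∑ p, la p = (Fintype.card J : ℝ) * ρ / 2 := by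
  have h1 := lam_sum F.fam.ev F.fam.ov
  have h2 := F.fam.card
  simp only [Finset.sum_add_distrib, Finset.sum_const, Finset.card_univ, nsmul_eq_mul] at h1
  rw [h2] at h1
  linarith

/-- the sum of the squares of the exterior products with the unit family -/
theorem SF.unit (F : SF h la c ρ) {d : ℕ} {f : Fk J} (hf : Dg (d + 2) f) :
    ∑ p, nn (LM (h p) f) =
      2 * (Fintype.card J - (d + 2)) * (Fintype.card J - (d + 3)) * nn f := by
  have e1 : ∑ p, nn (LM (h p) f) = Ls (nu h) f := rfl
  rw [e1, Ls_eq F.fam.eh.bi.anti, F.fam.eh.tt, F.fam.eh.Rn hf, An_unit F.comp hf]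
  push_cast
  ring

/-- the sum of the squares of the exterior products with the scaled family -/
theorem SF.scaled (F : SF h la c ρ) (f : Fk J) :
    Ls (nu fun p => Real.sqrt (la p + c) • h p) f =
      ∑ p, (la p + c) * nn (LM (h p) f) := by
  unfold Ls
  refine Finset.sum_congr rfl fun p _ => ?_
  have e1 : L (nu (fun p => Real.sqrt (la p + c) • h p) p) f =
      Real.sqrt (la p + c) • LM (h p) f := by
    rw [← L_smul]
    rfl
  rw [e1, nn_smul, Real.sq_sqrt (F.fam.pos p)]

/-- the weighted sum at a member of the family -/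
theorem SF.wsum (F : SF h la c ρ) (a : Pr J) :
    ∑ p, la p * nn (LM (h p) (LM (h a) (vac : Fk J))) =
      8 * (Fintype.card J - 4) * ρ + 16 * la a := by
  have hd : Dg (0 + 2) (LM (h a) (vac : Fk J)) := Dg_LM Dg_vac _
  have h1 := F.scaled (LM (h a) (vac : Fk J))
  have h2 := F.unit hd
  have h3 := Ls_eq F.fam.ev.bi.anti (LM (h a) (vac : Fk J))
  rw [F.fam.ev.tt, F.fam.ev.Rn hd, An_two _ F.fam.ev.sk (F.sk a), nn_two (F.sk a), F.one] at h3
  rw [nn_two (F.sk a), F.one] at h2
  have h4 : ∑ b, sp (Real.sqrt (la b + c) • h b) (h a) ^ 2 = la a + c := by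
    rw [Finset.sum_eq_single a]
    · rw [sp_smul', F.one, mul_one, Real.sq_sqrt (F.fam.pos a)]
    · intro b _ hb
      rw [sp_smul', F.orth hb, mul_zero]
      norm_num
    · simp
  rw [h4, h1] at h3
  simp only [add_mul, Finset.sum_add_distrib, ← Finset.mul_sum] at h3
  rw [h2] at h3
  push_cast at h3
  linarith

theorem SF.CCsum (F : SF h la c ρ) (i : Pr J) : ∑ j, CC h i j = 2 * ((Fintype.card J : ℝ) - 2) :=
  F.fam.CCsum i

theorem SF.CClam (F : SF h la c ρ) (i : Pr J) :
    ∑ j, la j * CC h i j = 2 * (ρ - la i) := by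
  have h1 := F.fam.CClam i
  have h2 := F.CCsum i
  simp only [add_mul, Finset.sum_add_distrib, ← Finset.mul_sum] at h1
  rw [h2] at h1
  linarith

end gen

end Run7.h512.EK
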