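import Pool.Agent.Run7.h512.EK.Link

/-!
# Signed spectral decomposition of an Einstein curvature operator
-/

set_option autoImplicit false

namespace Run7.h512.EK

open Finset Pool.Agent.TH594.HP Pool.Agent.TH594.HE

variable {J : Type*} [Fintype J] [DecidableEq J]

/-- spectral decomposition of an operator on two-forms, with signs -/
theorem sdecomp (G : J → J → J → J → ℝ) (h12 : ∀ i j k l, G j i k l = -G i j k l)
    (h34 : ∀ i j k l, G i j l k = -G i j k l) (hp : ∀ i j k l, G k l i j = G i j k l) :
    ∃ (h : Pr J → Matrix J J ℝ) (la : Pr J → ℝ), (∀ p, Sk (h p)) ∧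
      (∀ p q, sp (h p) (h q) = if p = q then 1 else 0) ∧
      (∀ i j k l, ∑ p, h p i j * h p k l =
        (if i = k then 1 else 0) * (if j = l then 1 else 0) -
          (if i = l then 1 else 0) * (if j = k then 1 else 0)) ∧
      (∀ i j k l, G i j k l = ∑ p, la p * (h p i j * h p k l)) := by
  set M : Matrix (Pr J) (Pr J) ℝ := fun p q => G p.1.1 p.1.2 q.1.1 q.1.2 with hM
  have hH : M.IsHermitian := by
    ext p q
    rw [Matrix.conjTranspose_apply, star_trivial]
    exact hp _ _ _ _
  set b := hH.eigenvectorBasis with hb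
  set u : Pr J → Pr J → ℝ := fun p q => (b p) q with hu
  have horth : ∀ p q, ∑ r, u p r * u q r = if p = q then 1 else 0 := by
    intro p q
    have h1 := orthonormal_iff_ite.mp b.orthonormal p q
    rw [← h1, PiLp.inner_apply]
    refine Finset.sum_congr rfl fun r _ => ?_
    simp [u, mul_comm]
  set U : Matrix (Pr J) (Pr J) ℝ := fun p q => u p q with hU
  have hUU : U * U.transpose = 1 := by
    ext p q
    rw [Matrix.mul_apply, Matrix.one_apply, ← horth p q]
    rfl
  have hUU' : U.transpose * U = 1 := mul_eq_one_comm.mp hUU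
  have hcomp : ∀ q r, ∑ p, u p q * u p r = if q = r then 1 else 0 := by
    intro q r
    have := congrFun (congrFun hUU' q) r
    rw [Matrix.mul_apply, Matrix.one_apply] at this
    rw [← this]
    rfl
  have heig : ∀ p q, ∑ r, M q r * u p r = hH.eigenvalues p * u p q := by
    intro p q
    have := congrFun (hH.mulVec_eigenvectorBasis p) q
    simpa [Matrix.mulVec, dotProduct, u] using this
  have hMs : ∀ q r, M q r = ∑ p, hH.eigenvalues p * (u p q * u p r) := by
    intro q r
    have h1 : M q r = ∑ s, M q s * (if s = r then 1 else 0) := by simp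
    rw [h1]
    simp only [← hcomp, Finset.mul_sum]
    rw [Finset.sum_comm]
    refine Finset.sum_congr rfl fun p _ => ?_
    have h2 : ∑ s, M q s * (u p s * u p r) = (∑ s, M q s * u p s) * u p r := by
      rw [Finset.sum_mul]
      exact Finset.sum_congr rfl fun s _ => by ring
    rw [h2, heig]; ring
  refine ⟨fun p => ext (u p), hH.eigenvalues, fun p => ext_sk _, ?_, ?_, ?_⟩
  · intro p q
    rw [sp_ext, horth]
  · intro i j k l
    have := anti4 (fun i j k l => ∑ p, ext (u p) i j * ext (u p) k l -
      ((if i = k then (1 : ℝ) else 0) * (if j = l then 1 else 0) -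
          (if i = l then 1 else 0) * (if j = k then 1 else 0))) ?_ ?_ ?_ i j k l
    · linarith
    · intro i j k l
      have e1 : ∑ p, ext (u p) j i * ext (u p) k l = -∑ p, ext (u p) i j * ext (u p) k l := by
        rw [← Finset.sum_neg_distrib]
        exact Finset.sum_congr rfl fun p _ => by rw [ext_sk (u p) i j]; ring
      rw [e1]; ring
    · intro i j k l
      have e1 : ∑ p, ext (u p) i j * ext (u p) l k = -∑ p, ext (u p) i j * ext (u p) k l := by
        rw [← Finset.sum_neg_distrib]
        exact Finset.sum_congr rfl fun p _ => by rw [ext_sk (u p) k l]; ring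
      rw [e1]; ring
    · intro i j k l hij hkl
      have e1 : ∑ p, ext (u p) i j * ext (u p) k l =
          if (⟨(i, j), hij⟩ : Pr J) = ⟨(k, l), hkl⟩ then 1 else 0 := by
        rw [← hcomp]
        exact Finset.sum_congr rfl fun p _ => by rw [ext_lt _ hij, ext_lt _ hkl]
      rw [e1]
      by_cases h1 : i = k
      · by_cases h2 : j = l
        · subst h1 h2
          have h3 : i ≠ j := by
            rintro rfl
            omega
          simp [h3]
        · have h3 : ¬ (i = l ∧ j = k) := by
            rintro ⟨rfl, rfl⟩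
            omega
          have h4 : ¬ (⟨(i, j), hij⟩ : Pr J) = ⟨(k, l), hkl⟩ := by
            intro h
            simp only [Subtype.mk.injEq, Prod.mk.injEq] at h
            exact h2 h.2
          rw [if_neg h4, if_neg h2]
          by_cases h5 : i = l
          · have h6 : j ≠ k := fun h => h3 ⟨h5, h⟩
            rw [if_neg h6]; ring
          · rw [if_neg h5]; ring
      · have h3 : ¬ (i = l ∧ j = k) := by
          rintro ⟨rfl, rfl⟩
          omega
        have h4 : ¬ (⟨(i, j), hij⟩ : Pr J) = ⟨(k, l), hkl⟩ := by
          intro h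
          simp only [Subtype.mk.injEq, Prod.mk.injEq] at h
          exact h1 h.1
        rw [if_neg h4, if_neg h1]
        by_cases h5 : i = l
        · have h6 : j ≠ k := fun h => h3 ⟨h5, h⟩
          rw [if_neg h6]; ring
        · rw [if_neg h5]; ring
  · intro i j k l
    have := anti4 (fun i j k l => G i j k l -
      ∑ p, hH.eigenvalues p * (ext (u p) i j * ext (u p) k l)) ?_ ?_ ?_ i j k l
    · linarith
    · intro i j k l
      have e1 : ∑ p, hH.eigenvalues p * (ext (u p) j i * ext (u p) k l) =
          -∑ p, hH.eigenvalues p * (ext (u p) i j * ext (u p) k l) := by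
        rw [← Finset.sum_neg_distrib]
        exact Finset.sum_congr rfl fun p _ => by rw [ext_sk (u p) i j]; ring
      rw [e1, h12 i j]; ring
    · intro i j k l
      have e1 : ∑ p, hH.eigenvalues p * (ext (u p) i j * ext (u p) l k) =
          -∑ p, hH.eigenvalues p * (ext (u p) i j * ext (u p) k l) := by
        rw [← Finset.sum_neg_distrib]
        exact Finset.sum_congr rfl fun p _ => by rw [ext_sk (u p) k l]; ring
      rw [e1, h34 i j k l]; ring
    · intro i j k l hij hkl
      have e1 := hMs ⟨(i, j), hij⟩ ⟨(k, l), hkl⟩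
      rw [sub_eq_zero]
      refine Eq.trans e1 ?_
      exact Finset.sum_congr rfl fun p _ => by rw [ext_lt _ hij, ext_lt _ hkl]

/-- the signed eigenfamily of an Einstein curvature operator -/
theorem exists_SF (G : J → J → J → J → ℝ) (h12 : ∀ i j k l, G j i k l = -G i j k l)
    (h34 : ∀ i j k l, G i j l k = -G i j k l) (hp : ∀ i j k l, G k l i j = G i j k l)
    (hb : ∀ i j k l, G i j k l + G j k i l + G k i j l = 0) {ρ : ℝ}
    (hr : ∀ j l, ∑ i, G i j i l = if j = l then ρ else 0) :
    ∃ (h : Pr J → Matrix J J ℝ) (la : Pr J → ℝ) (c : ℝ), SF h la c ρ ∧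
      ∀ i j k l, G i j k l = ∑ p, la p * (h p i j * h p k l) := by
  obtain ⟨h, la, hsk, horth, hcomp, hG⟩ := sdecomp G h12 h34 hp
  obtain ⟨c, hc⟩ : ∃ c, c = ∑ p, |la p| := ⟨_, rfl⟩
  have hpos : ∀ p, 0 ≤ la p + c := by
    intro p
    have h1 : |la p| ≤ c := by
      rw [hc]
      exact Finset.single_le_sum (f := fun p => |la p|) (fun p _ => abs_nonneg _)
        (Finset.mem_univ p)
    have h2 := neg_abs_le (la p)
    linarith
  have e1 : ∀ i j k l, EE (nu h) i j k l =
        (if i = k then 1 else 0) * (if j = l then 1 else 0) -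
          (if i = l then 1 else 0) * (if j = k then 1 else 0) := hcomp
  have e2 : ∀ i j k l, EE (nu fun p => Real.sqrt (la p + c) • h p) i j k l =
      G i j k l + c * ((if i = k then 1 else 0) * (if j = l then 1 else 0) -
          (if i = l then 1 else 0) * (if j = k then 1 else 0)) := by
    intro i j k l
    rw [hG, ← e1, EE, EE, Finset.mul_sum, ← Finset.sum_add_distrib]
    unfold nu
    refine Finset.sum_congr rfl fun p _ => ?_
    simp only [Matrix.smul_apply, smul_eq_mul]
    have := Real.mul_self_sqrt (hpos p)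
    linear_combination (h p i j * h p k l) * this
  have e3 : ∀ j l : J, ∑ i, ((if i = i then (1 : ℝ) else 0) * (if j = l then 1 else 0) -
          (if i = l then 1 else 0) * (if j = i then 1 else 0)) =
      if j = l then (Fintype.card J : ℝ) - 1 else 0 := by
    intro j l
    simp only [if_true, one_mul, Finset.sum_sub_distrib, Finset.sum_const, Finset.card_univ,
      nsmul_eq_mul]
    have : ∑ i, (if i = l then (1 : ℝ) else 0) * (if j = i then 1 else 0) =
        if j = l then 1 else 0 := by
      rw [Finset.sum_eq_single l]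
      · simp
      · intro i _ hi
        rw [if_neg hi, zero_mul]
      · simp
    rw [this]
    split_ifs <;> ring
  refine ⟨h, la, c, ⟨⟨⟨⟨fun a i j => hsk a i j, ?_⟩, ?_⟩, ⟨fun a => ?_, fun a b hab => ?_⟩, hpos,
    ⟨⟨?_, ?_⟩, ?_⟩, ⟨fun a => ?_, fun a b hab => ?_⟩⟩, hcomp⟩, hG⟩
  · intro i j k l
    rw [e1, e1, e1]
    simp only [eq_comm (a := k) (b := j), eq_comm (a := k) (b := i), eq_comm (a := j) (b := i)]
    ring
  · intro j l
    unfold rc
    rw [Finset.sum_congr rfl fun i _ => e1 i j i l]
    exact e3 j l
  · rw [horth, if_pos rfl]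
  · rw [horth, if_neg hab]
  · intro a i j
    unfold nu
    simp only [Matrix.smul_apply, smul_eq_mul]
    rw [hsk a i j]; ring
  · intro i j k l
    rw [e2, e2, e2]
    simp only [eq_comm (a := k) (b := j), eq_comm (a := k) (b := i), eq_comm (a := j) (b := i)]
    linear_combination hb i j k l
  · intro j l
    unfold rc
    rw [Finset.sum_congr rfl fun i _ => e2 i j i l, Finset.sum_add_distrib, ← Finset.mul_sum,
      e3, hr]
    split_ifs <;> ring
  · rw [sp_smul, sp_smul', horth, if_pos rfl, mul_one]
    exact Real.mul_self_sqrt (hpos a)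
  · rw [sp_smul, sp_smul', horth, if_neg hab, mul_zero, mul_zero]

end Run7.h512.EK
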